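import Pool.Agent.W2helper31.GP.Stm3

/-!
# Project GP, piece CONV: grouping the series for `log Gamma`
-/

set_option autoImplicit false

open MeasureTheory ProbabilityTheory Filter Topology
open scoped ENNReal NNReal

namespace Pool.Agent.W2helper11.GP

open Pool.Agent.W2helper31.GP

theorem hasDeriv_phi {m u : ℝ} (hm : 0 ≤ m) (hu : 0 < u) :
    HasDerivAt (fun u => phi (m / u)) (-(m ^ 2 / (u ^ 2 * (u + m)))) u := by
  have h1 : HasDerivAt (fun u : ℝ => m / u) (-m / u ^ 2) u := by
    have := (hasDerivAt_const u m).div (hasDerivAt_id u) hu.ne'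
    exact this.congr_deriv (by simp)
  have h2 : (0 : ℝ) < 1 + m / u := by positivity
  have h3 := h1.sub ((h1.const_add 1).log h2.ne')
  refine h3.congr_deriv ?_
  have : u + m ≠ 0 := by positivity
  have h4 : 1 + m / u = (u + m) / u := by field_simp
  rw [h4]
  field_simp
  ring

theorem convex_phi {m : ℝ} (hm : 0 ≤ m) : ConvexOn ℝ (Set.Ioi 0) (fun u => phi (m / u)) := by
  have hd : ∀ u ∈ Set.Ioi (0 : ℝ), HasDerivAt (fun u => phi (m / u))
      (-(m ^ 2 / (u ^ 2 * (u + m)))) u := fun u hu => hasDeriv_phi hm hu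
  refine MonotoneOn.convexOn_of_deriv (convex_Ioi 0)
    (fun u hu => (hd u hu).continuousAt.continuousWithinAt) ?_ ?_
  · rw [interior_Ioi]
    exact fun u hu => (hd u hu).differentiableAt.differentiableWithinAt
  · rw [interior_Ioi]
    intro u hu v hv huv
    have hu' : (0 : ℝ) < u := hu
    rw [(hd u hu).deriv, (hd v hv).deriv]
    apply neg_le_neg
    apply div_le_div_of_nonneg_left (by positivity) (by positivity)
    have : u ^ 2 ≤ v ^ 2 := pow_le_pow_left₀ hu'.le huv 2
    apply mul_le_mul this (by linarith) (by positivity) (by positivity)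

theorem sum_id (q : ℕ) : ∑ j ∈ Finset.range q, (j : ℝ) = q * (q - 1) / 2 := by
  induction q with
  | zero => simp
  | succ q ih =>
    rw [Finset.sum_range_succ, ih]
    push_cast
    ring

theorem step {q : ℕ} (hq : 1 ≤ q) {m : ℝ} (hm : 0 ≤ m) (n : ℕ) :
    (q : ℝ) * phi (m / (1 + n)) ≤
      ∑ j ∈ Finset.range q, phi (q * m / (((q : ℝ) + 1) / 2 + ((q * n + j : ℕ) : ℝ))) := by
  have hq0 : (0 : ℝ) < q := by exact_mod_cast hq
  set u : ℕ → ℝ := fun j => ((q : ℝ) + 1) / (2 * q) + n + j / q with hu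
  have hu0 : ∀ j, 0 < u j := fun j => by
    simp only [hu]
    positivity
  have hJ := (convex_phi hm).map_sum_le (t := Finset.range q) (w := fun _ => (q : ℝ)⁻¹) (p := u)
    (fun _ _ => by positivity) (by
      rw [Finset.sum_const, Finset.card_range, nsmul_eq_mul, mul_inv_cancel₀ hq0.ne'])
    (fun j _ => hu0 j)
  have havg : ∑ j ∈ Finset.range q, (q : ℝ)⁻¹ • u j = 1 + n := by
    simp only [hu, smul_eq_mul]
    rw [← Finset.mul_sum, Finset.sum_add_distrib, Finset.sum_const, ← Finset.sum_div, sum_id,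
      Finset.card_range, nsmul_eq_mul]
    field_simp
    ring
  rw [havg] at hJ
  have h1 : ∀ j, q * m / (((q : ℝ) + 1) / 2 + ((q * n + j : ℕ) : ℝ)) = m / u j := by
    intro j
    have h2 : ((q : ℝ) + 1) / 2 + ((q * n + j : ℕ) : ℝ) = q * u j := by
      simp only [hu]
      push_cast
      field_simp
      ring
    rw [h2, mul_div_mul_left _ _ hq0.ne']
  simp only [h1]
  simp only [smul_eq_mul] at hJ
  rw [← Finset.mul_sum] at hJ
  calc (q : ℝ) * phi (m / (1 + n)) ≤ q * ((q : ℝ)⁻¹ * ∑ j ∈ Finset.range q, phi (m / u j)) :=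
        mul_le_mul_of_nonneg_left hJ hq0.le
    _ = ∑ j ∈ Finset.range q, phi (m / u j) := by
      rw [← mul_assoc, mul_inv_cancel₀ hq0.ne', one_mul]

theorem p_CONV : P_CONV := by
  intro hS r m hr hm
  obtain ⟨q, rfl⟩ : ∃ q, r = q + 1 := ⟨r - 1, by omega⟩
  have hq : 1 ≤ q := by omega
  have hq0 : (0 : ℝ) < q := by exact_mod_cast hq
  have e1 : (((q + 1 : ℕ) : ℝ) - 1) = q := by push_cast; ring
  have e2 : ((q + 1 : ℕ) : ℝ) / 2 = ((q : ℝ) + 1) / 2 := by push_cast; ring
  rw [e1, e2]
  have hA := (hS 1 m one_pos hm).tendsto_sum_nat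
  have hB := (hS (((q : ℝ) + 1) / 2) (q * m) (by positivity) (by positivity)).tendsto_sum_nat
  have hq1 : Tendsto (fun n : ℕ => q * n) atTop atTop :=
    tendsto_id.const_mul_atTop' (by omega)
  have hB' := hB.comp hq1
  have hA' := hA.const_mul (q : ℝ)
  have key := le_of_tendsto_of_tendsto' hA' hB' (fun n => by
    induction n with
    | zero => simp
    | succ n ih =>
      simp only [Function.comp_apply] at ih ⊢
      rw [Finset.sum_range_succ, mul_add, Nat.mul_succ, Finset.sum_range_add]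
      exact add_le_add ih (step hq hm n))
  rw [Real.Gamma_one, Real.log_one, sub_zero] at key
  exact key

end Pool.Agent.W2helper11.GP
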