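import Pool.Agent.W2helper31.GP.Stm

/-!
# Project GP, piece MARG: unit linear forms of a standard Gaussian vector
-/

set_option autoImplicit false

open MeasureTheory ProbabilityTheory
open scoped ENNReal NNReal

namespace Pool.Agent.W2helper11.GP

open Pool.Agent.W2helper31.GP

theorem prob_Gam (r : ℕ) : IsProbabilityMeasure (Gam r) := by
  unfold Gam
  infer_instance

theorem map_form (r : ℕ) (b : Fin r → ℝ) (hb : ∑ j, b j ^ 2 = 1) :
    (Gam r).map (fun x => ∑ j, b j * x j) = gaussianReal 0 1 := by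
  have := prob_Gam r
  have hm : Measurable (fun x : Fin r → ℝ => ∑ j, b j * x j) := by fun_prop
  have : IsProbabilityMeasure ((Gam r).map (fun x => ∑ j, b j * x j)) :=
    Measure.isProbabilityMeasure_map hm.aemeasurable
  refine Measure.ext_of_charFun ?_
  ext t
  rw [charFun_gaussianReal, charFun_apply_real, integral_map hm.aemeasurable (by fun_prop)]
  have h1 : ∀ x : Fin r → ℝ, Complex.exp (t * ((∑ j, b j * x j : ℝ) : ℂ) * Complex.I) =
      ∏ j, Complex.exp (((t * b j : ℝ) : ℂ) * ((x j : ℝ) : ℂ) * Complex.I) := by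
    intro x
    rw [← Complex.exp_sum]
    congr 1
    push_cast
    rw [Finset.mul_sum, Finset.sum_mul]
    refine Finset.sum_congr rfl fun j _ => ?_
    ring
  simp only [h1]
  unfold Gam
  rw [integral_fintype_prod_eq_prod
    (f := fun j (y : ℝ) => Complex.exp (((t * b j : ℝ) : ℂ) * (y : ℂ) * Complex.I))]
  have h2 : ∀ j, ∫ y : ℝ, Complex.exp (((t * b j : ℝ) : ℂ) * (y : ℂ) * Complex.I)
      ∂(gaussianReal 0 1) = Complex.exp (-(((t * b j : ℝ) : ℂ) ^ 2 / 2)) := by
    intro j
    rw [← charFun_apply_real, charFun_gaussianReal]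
    congr 1
    push_cast
    simp
  simp only [h2]
  rw [← Complex.exp_sum]
  congr 1
  have h3 : (∑ j, ((b j : ℝ) : ℂ) ^ 2) = 1 := by
    exact_mod_cast congrArg (fun z : ℝ => (z : ℂ)) hb
  have h4 : ∑ j, (-(((t * b j : ℝ) : ℂ) ^ 2 / 2)) = -((t : ℂ) ^ 2 / 2) * ∑ j, ((b j : ℝ) : ℂ) ^ 2 := by
    rw [Finset.mul_sum]
    refine Finset.sum_congr rfl fun j _ => ?_
    push_cast
    ring
  rw [h4, h3]
  push_cast
  simp

theorem sq_int : Integrable (fun x : ℝ => x ^ 2) (gaussianReal 0 1) ∧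
    ∫ x : ℝ, x ^ 2 ∂(gaussianReal 0 1) = 1 := by
  refine ⟨?_, ?_⟩
  · have h := memLp_id_gaussianReal (μ := 0) (v := 1) 2
    have h2 := h.integrable_sq
    simpa using h2
  · have h := variance_of_integral_eq_zero (μ := gaussianReal 0 1) (X := fun x : ℝ => x)
      (by fun_prop) (by simp)
    rw [variance_fun_id_gaussianReal] at h
    rw [← h]
    simp

theorem p_MARG : P_MARG := by
  refine ⟨map_form, fun r => ?_⟩
  have hmp : ∀ j : Fin r, MeasurePreserving (fun x : Fin r → ℝ => x j) (Gam r)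
      (gaussianReal 0 1) := fun j =>
    measurePreserving_eval (fun _ : Fin r => gaussianReal 0 1) j
  have h1 : ∀ j : Fin r, Integrable (fun x : Fin r → ℝ => x j ^ 2) (Gam r) := fun j =>
    (hmp j).integrable_comp_of_integrable sq_int.1
  refine ⟨integrable_finsetSum _ fun j _ => h1 j, ?_⟩
  rw [integral_finsetSum _ fun j _ => h1 j]
  have h2 : ∀ j : Fin r, ∫ x : Fin r → ℝ, x j ^ 2 ∂(Gam r) = 1 := by
    intro j
    have h3 : ∫ y, y ^ 2 ∂((Gam r).map (fun x : Fin r → ℝ => x j)) =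
        ∫ x : Fin r → ℝ, x j ^ 2 ∂(Gam r) :=
      integral_map (hmp j).measurable.aemeasurable (by fun_prop)
    rw [← h3, (hmp j).map_eq, sq_int.2]
  simp [h2]

end Pool.Agent.W2helper11.GP
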