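import Pool.Agent.W2helper31.GP.Stm3

/-!
# Project GP, piece SER: a series for `log Gamma`
-/

set_option autoImplicit false

open MeasureTheory ProbabilityTheory Filter Topology
open scoped ENNReal NNReal

namespace Pool.Agent.W2helper11.GP

open Pool.Agent.W2helper31.GP

theorem phi_nonneg {z : ℝ} (hz : 0 ≤ z) : 0 ≤ phi z := by
  unfold phi
  have := Real.log_le_sub_one_of_pos (show 0 < 1 + z by linarith)
  linarith

theorem phi_le {z : ℝ} (hz : 0 ≤ z) : phi z ≤ z ^ 2 / 2 := by
  unfold phi
  have h := Real.le_log_one_add_of_nonneg hz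
  have h2 : z - 2 * z / (z + 2) ≤ z ^ 2 / 2 := by
    have h3 : z - 2 * z / (z + 2) = z ^ 2 / (z + 2) := by
      field_simp
      ring
    rw [h3]
    apply div_le_div_of_nonneg_left (by positivity) (by norm_num) (by linarith)
  linarith

theorem summable_sq {a : ℝ} (ha : 0 < a) : Summable (fun k : ℕ => 1 / (a + k) ^ 2) := by
  rw [← summable_nat_add_iff 1]
  have h : Summable (fun k : ℕ => 1 / ((k + 1 : ℕ) : ℝ) ^ 2) :=
    (summable_nat_add_iff 1).2 (Real.summable_one_div_nat_pow.2 (by norm_num))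
  refine Summable.of_nonneg_of_le (fun k => by positivity) (fun k => ?_) h
  apply one_div_le_one_div_of_le
  · positivity
  · have h1 : (0 : ℝ) ≤ ((k + 1 : ℕ) : ℝ) := by positivity
    apply pow_le_pow_left₀ h1
    linarith

theorem summable_phi {a s : ℝ} (ha : 0 < a) (hs : 0 ≤ s) :
    Summable (fun k : ℕ => phi (s / (a + k))) ∧
      ∑' k : ℕ, phi (s / (a + k)) ≤ s ^ 2 / 2 * ∑' k : ℕ, 1 / (a + k) ^ 2 := by
  have h0 : ∀ k : ℕ, 0 ≤ s / (a + k) := fun k => by positivity
  have h1 : ∀ k : ℕ, phi (s / (a + k)) ≤ s ^ 2 / 2 * (1 / (a + k) ^ 2) := by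
    intro k
    refine (phi_le (h0 k)).trans (le_of_eq ?_)
    have : a + (k : ℝ) ≠ 0 := by positivity
    field_simp
  have h2 := (summable_sq ha).mul_left (s ^ 2 / 2)
  have h3 : Summable (fun k : ℕ => phi (s / (a + k))) :=
    Summable.of_nonneg_of_le (fun k => phi_nonneg (h0 k)) h1 h2
  refine ⟨h3, ?_⟩
  rw [← tsum_mul_left]
  exact h3.tsum_le_tsum h1 h2

theorem p_SER : P_SER := by
  intro a s ha hs
  -- the function `L` and its approximations
  set L : ℝ → ℝ := fun s => Real.log (Real.Gamma (a + s)) - Real.log (Real.Gamma a) with hL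
  set c : ℕ → ℝ := fun n => Real.log n - ∑ m ∈ Finset.range (n + 1), 1 / (a + m) with hc
  set S : ℝ → ℝ := fun s => ∑' k : ℕ, phi (s / (a + k)) with hS
  have hseq : ∀ s : ℝ, 0 ≤ s → ∀ n : ℕ, Real.BohrMollerup.logGammaSeq (a + s) n -
      Real.BohrMollerup.logGammaSeq a n =
        s * c n + ∑ m ∈ Finset.range (n + 1), phi (s / (a + m)) := by
    intro s hs n
    unfold Real.BohrMollerup.logGammaSeq
    have h1 : ∑ m ∈ Finset.range (n + 1), phi (s / (a + m)) =
        s * ∑ m ∈ Finset.range (n + 1), 1 / (a + m) -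
          (∑ m ∈ Finset.range (n + 1), Real.log (a + s + m) -
            ∑ m ∈ Finset.range (n + 1), Real.log (a + m)) := by
      rw [Finset.mul_sum, ← Finset.sum_sub_distrib, ← Finset.sum_sub_distrib]
      refine Finset.sum_congr rfl fun m _ => ?_
      have h2 : 0 < a + (m : ℝ) := by positivity
      have h3 : 0 < a + s + (m : ℝ) := by positivity
      have h4 : 1 + s / (a + m) = (a + s + m) / (a + m) := by
        field_simp
        ring
      unfold phi
      rw [h4, Real.log_div h3.ne' h2.ne']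
      ring
    rw [h1, hc]
    ring
  have hlim : ∀ s : ℝ, 0 ≤ s → Tendsto (fun n : ℕ => s * c n +
      ∑ m ∈ Finset.range (n + 1), phi (s / (a + m))) atTop (𝓝 (L s)) := by
    intro s hs
    have h1 := (Real.BohrMollerup.tendsto_log_gamma (show 0 < a + s by linarith)).sub
      (Real.BohrMollerup.tendsto_log_gamma ha)
    exact h1.congr fun n => hseq s hs n
  have hsum : ∀ s : ℝ, 0 ≤ s → Tendsto (fun n : ℕ =>
      ∑ m ∈ Finset.range (n + 1), phi (s / (a + m))) atTop (𝓝 (S s)) := by
    intro s hs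
    exact ((summable_phi ha hs).1.hasSum.tendsto_sum_nat).comp (tendsto_add_atTop_nat 1)
  -- `c` converges
  have hclim : Tendsto c atTop (𝓝 (L 1 - S 1)) := by
    have h1 := (hlim 1 zero_le_one).sub (hsum 1 zero_le_one)
    refine h1.congr fun n => ?_
    ring
  set c₀ := L 1 - S 1 with hc₀
  have hLs : ∀ s : ℝ, 0 ≤ s → L s = s * c₀ + S s := by
    intro s hs
    exact tendsto_nhds_unique (hlim s hs) ((hclim.const_mul s).add (hsum s hs))
  -- the derivative at zero
  have hGa : 0 < Real.Gamma a := Real.Gamma_pos_of_pos ha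
  have hder : HasDerivAt L (dg a) 0 := by
    have h1 : HasDerivAt Real.Gamma (deriv Real.Gamma a) (a + 0) := by
      rw [add_zero]
      refine (Real.differentiableAt_Gamma fun m => ?_).hasDerivAt
      have : (0 : ℝ) ≤ m := Nat.cast_nonneg m
      intro h
      linarith
    have h2 : HasDerivAt (fun s : ℝ => a + s) 1 0 := (hasDerivAt_id 0).const_add a
    have h3 := h1.comp 0 h2
    have h4 := (h3.log (by simp [hGa.ne'])).sub_const (Real.log (Real.Gamma a))
    exact h4.congr_deriv (by simp [dg])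
  have hslope := hder.tendsto_slope_zero_right
  set C := ∑' k : ℕ, 1 / (a + (k : ℝ)) ^ 2 with hC
  have hlow : Tendsto (fun t : ℝ => t⁻¹ • (L (0 + t) - L 0)) (𝓝[>] 0) (𝓝 c₀) := by
    have h5 : Tendsto (fun t : ℝ => c₀ + t / 2 * C) (𝓝[>] 0) (𝓝 c₀) := by
      have h6 : Tendsto (fun t : ℝ => c₀ + t / 2 * C) (𝓝 0) (𝓝 (c₀ + 0 / 2 * C)) := by
        apply Continuous.tendsto
        fun_prop
      simp only [zero_div, zero_mul, add_zero] at h6
      exact h6.mono_left nhdsWithin_le_nhds
    have hval : ∀ t : ℝ, 0 < t → t⁻¹ • (L (0 + t) - L 0) = c₀ + t⁻¹ * S t := by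
      intro t ht
      have h0 : L 0 = 0 := by simp [hL]
      rw [zero_add, h0, sub_zero, hLs t ht.le, smul_eq_mul, mul_add, ← mul_assoc,
        inv_mul_cancel₀ ht.ne', one_mul]
    refine tendsto_of_tendsto_of_tendsto_of_le_of_le' tendsto_const_nhds h5 ?_ ?_
    · filter_upwards [self_mem_nhdsWithin] with t ht
      have ht' : 0 < t := ht
      rw [hval t ht']
      have : 0 ≤ S t := tsum_nonneg fun k => phi_nonneg (by positivity)
      have h7 : 0 ≤ t⁻¹ * S t := by positivity
      linarith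
    · filter_upwards [self_mem_nhdsWithin] with t ht
      have ht' : 0 < t := ht
      rw [hval t ht']
      have h8 := (summable_phi ha ht'.le).2
      have h9 : t⁻¹ * S t ≤ t⁻¹ * (t ^ 2 / 2 * C) :=
        mul_le_mul_of_nonneg_left h8 (by positivity)
      have h10 : t⁻¹ * (t ^ 2 / 2 * C) = t / 2 * C := by
        field_simp
      linarith
  have hc₀' : c₀ = dg a := tendsto_nhds_unique hlow hslope
  have hfin : Real.log (Real.Gamma (a + s)) - Real.log (Real.Gamma a) - s * dg a = S s := by
    have h11 := hLs s hs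
    rw [hc₀'] at h11
    have h12 : L s = Real.log (Real.Gamma (a + s)) - Real.log (Real.Gamma a) := rfl
    linarith
  rw [hfin]
  exact (summable_phi ha hs).1.hasSum

end Pool.Agent.W2helper11.GP
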